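import Mathlib
import Pool.Agent.H957R3.LD1
import Pool.Agent.H957R3.LD2
import Pool.Agent.H957R3.LD3
import Pool.Agent.H957R3.LG

set_option autoImplicit false

/-!
# `B_4(T(V))` is not a direct sum of functors `G_λ(V)`

Let `T(V)` be the tensor algebra, `L_1 = T(V)`, `L_{k+1} = [T(V), L_k]` and `B_k = L_k / L_{k+1}`.
For `V = K^n` the algebra `T(V)` is the free algebra on `n` letters, it is graded by the number of
occurrences of each letter, and this grading is the decomposition of `T(K^n)` into weight spaces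
for the diagonal torus of `GL_n`.

We show that for `k = 4` and `n = 4` there is no finite collection `Λ` of Young diagrams such that
`B_4(T(K^4))` and `⊕_{λ ∈ Λ} G_λ(K^4)` have the same weight multiplicities. Here
`G_λ(V) = S(V) ⊗ ⊕_{j ≥ 0} S_{(λ,1^{2j})}(V)`.

The reason is the inequality
`12 m(3,2,0,0) + 11 m(2,2,1,0) ≤ 2 m(3,2,1,1) + 21 m(2,2,0,0) + 4 m(3,1,1,0)`,
which the weight multiplicities `m` of every `G_λ(K^4)` satisfy, whereas the corresponding
multiplicities `3, 10, 50, 1, 6` of `B_4(T(K^4))` give `146` on the left and `145` on the right.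
-/

namespace Pool.Agent.Results.MP_eb394a_al.NoSchurDecomposition

universe u

/-- The lower central series of the free algebra `T(K^n) = FreeAlgebra K (Fin n)` under the bracket
`[a, b] = a b - b a`: `L_1` is everything and `L_{k+1}` is the span of all `[a, b]` with `a`
arbitrary and `b ∈ L_k`. (The value at `0`, which is not used, is also everything.) -/
noncomputable def L (K : Type u) [Field K] (n : ℕ) : ℕ → Submodule K (FreeAlgebra K (Fin n))
  | 0 => ⊤
  | 1 => ⊤
  | k + 2 => Submodule.span K {x | ∃ a b, b ∈ L K n (k + 1) ∧ x = a * b - b * a}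

/-- The weight space of `T(K^n)` of weight `α = (α_0, …, α_{n-1})`: the span of the monomials in
which the `i`th letter occurs exactly `α i` times for every `i`. -/
noncomputable def weightSpace (K : Type u) [Field K] {n : ℕ} (α : Fin n → ℕ) :
    Submodule K (FreeAlgebra K (Fin n)) :=
  Submodule.span K {x | ∃ w : List (Fin n), (∀ i, w.count i = α i) ∧
    x = (w.map (FreeAlgebra.ι K)).prod}

/-- The multiplicity of the weight `α` in `B_k(T(K^n)) = L_k / L_{k+1}`: the dimension of the image
in `T(K^n) / L_{k+1}` of the part of `L_k` of weight `α`. -/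
noncomputable def multB (K : Type u) [Field K] (n k : ℕ) (α : Fin n → ℕ) : ℕ :=
  Module.finrank K ((L K n k ⊓ weightSpace K α).map (L K n (k + 1)).mkQ)

/-- The multiplicity of the weight `β` in the Schur functor `S_μ(K^n)`: the number (Kostka number)
of semistandard Young tableaux of shape `μ` with entries in `{0, …, n-1}` in which the entry `i`
occurs exactly `β i` times for every `i`. -/
noncomputable def kostka (μ : YoungDiagram) {n : ℕ} (β : Fin n → ℕ) : ℕ :=
  Nat.card {T : SemistandardYoungTableau μ // (∀ c ∈ μ.cells, T c.1 c.2 < n) ∧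
    ∀ i : Fin n, (μ.cells.filter fun c => T c.1 c.2 = i).card = β i}

/-- The diagram `(μ, 1^m)`, obtained from `μ` by appending `m` rows of length one. -/
def addOnes (μ : YoungDiagram) (m : ℕ) : YoungDiagram :=
  YoungDiagram.ofRowLens (μ.rowLens ++ List.replicate m 1) (by
    rw [List.sortedGE_iff_pairwise, List.pairwise_append]
    refine ⟨μ.rowLens_sorted.pairwise, ?_, ?_⟩
    · exact List.pairwise_replicate.2 (Or.inr le_rfl)
    · intro a ha b hb
      rw [List.eq_of_mem_replicate hb]
      exact μ.pos_of_mem_rowLens a ha)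

/-- The multiplicity of the weight `α` in `G_λ(K^n) = S(K^n) ⊗ ⊕_{j ≥ 0} S_{(λ,1^{2j})}(K^n)`.
Every weight of the symmetric algebra `S(K^n)` has multiplicity one, so this multiplicity is the sum
over `j` and over the `β ≤ α` of the multiplicity of `β` in `S_{(λ,1^{2j})}(K^n)`. The terms with
`j > |α| = ∑ i, α i` vanish, see `kostka_addOnes_eq_zero`. -/
noncomputable def multG (lam : YoungDiagram) (n : ℕ) (α : Fin n → ℕ) : ℕ :=
  ∑ j ∈ Finset.range (∑ i, α i + 1), ∑ β ∈ Finset.Iic α, kostka (addOnes lam (2 * j)) β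

open H957R3.LCS

/-- The terms left out in `multG` are zero. -/
theorem kostka_addOnes_eq_zero (lam : YoungDiagram) {n : ℕ} (α β : Fin n → ℕ) (hβ : β ≤ α) (j : ℕ)
    (hj : ∑ i, α i < j) : kostka (addOnes lam (2 * j)) β = 0 := by
  apply kos_eq_zero
  have h1 : (addOnes lam (2 * j)).cells.card = lam.cells.card + 2 * j := card_addO lam (2 * j)
  have h2 : ∑ i, β i ≤ ∑ i, α i := Finset.sum_le_sum (fun i _ => hβ i)
  omega

theorem L_eq (K : Type u) [Field K] (n k : ℕ) : L K n (k + 1) = lc K k := by
  induction k with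
  | zero => rfl
  | succ k ih => rw [L, ih]; rfl

theorem weightSpace_eq (K : Type u) [Field K] {n : ℕ} (α : Fin n → ℕ) :
    weightSpace K α = wt K α := by
  rw [weightSpace, wt]
  congr 1
  ext x
  constructor
  · rintro ⟨w, hw, rfl⟩
    exact ⟨w, funext hw, rfl⟩
  · rintro ⟨w, hw, rfl⟩
    exact ⟨w, fun i => congrFun hw i, rfl⟩

/-- **Theorem.** Let `K` be a field of characteristic zero. There is no finite collection `Λ` of
Young diagrams (repetitions allowed) such that `B_4(T(K^4))` and `⊕_{λ ∈ Λ} G_λ(K^4)` have the same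
weight multiplicities. In particular `B_4(T(V))` and `⊕_{λ ∈ Λ} G_λ(V)` are not isomorphic as
abstract Schur functors. -/
theorem result (K : Type u) [Field K] [CharZero K] :
    ¬ ∃ Λ : Multiset YoungDiagram, ∀ α : Fin 4 → ℕ,
      multB K 4 4 α = (Λ.map fun lam => multG lam 4 α).sum := by
  rintro ⟨Λ, h⟩
  have hF : ∀ α : Fin 4 → ℕ, multB K 4 4 α +
      Module.finrank K (lc K 4 ⊓ wt K α : Submodule K (FreeAlgebra K (Fin 4))) =
      Module.finrank K (lc K 3 ⊓ wt K α : Submodule K (FreeAlgebra K (Fin 4))) := by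
    intro α
    have := finrank_quot K 3 α (mem_words α)
    rw [← this, multB, L_eq, L_eq, weightSpace_eq]
  have h1 := hF ![3, 2, 1, 1]
  have h2 := hF ![2, 2, 0, 0]
  have h3 := hF ![3, 1, 1, 0]
  have h4 := hF ![3, 2, 0, 0]
  have h5 := hF ![2, 2, 1, 0]
  have u1 := U3211 K
  have u2 := U22 K
  have u3 := U311 K
  have u4 := U32 K
  have u5 := U221 K
  have l1 := L3211 K
  have l3 := L311 K
  have l4 := L32 K
  have l5 := L221 K
  have key : (Λ.map fun lam => 12 * multG lam 4 ![3, 2, 0, 0] + 11 * multG lam 4 ![2, 2, 1, 0]).sum ≤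
      (Λ.map fun lam => 2 * multG lam 4 ![3, 2, 1, 1] + 21 * multG lam 4 ![2, 2, 0, 0] +
        4 * multG lam 4 ![3, 1, 1, 0]).sum :=
    Multiset.sum_map_le_sum_map _ _ (fun lam _ => ineq_all lam)
  simp only [Multiset.sum_map_add, Multiset.sum_map_mul_left, ← h] at key
  omega

end Pool.Agent.Results.MP_eb394a_al.NoSchurDecomposition
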